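import Pool.Agent.TH480.SC.Rev

set_option autoImplicit false

/-!
# At least three conjugates are needed
-/

open Filter Topology

namespace Pool.Agent.TH480.SC

/-- `f` is in the path component of the identity of the group of homeomorphisms of the sphere: there
is an isotopy `F` from the identity to `f`. -/
def InG (f : S2 ≃ₜ S2) : Prop :=
  ∃ F : unitInterval → (S2 ≃ₜ S2), Continuous (fun p : unitInterval × S2 => F p.1 p.2) ∧
    F 0 = Homeomorph.refl S2 ∧ F 1 = f

/-- The property `P(n)`: any `B` in `G` is the product of exactly `n` conjugates of any `A` in `G`,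
`A` and `B` different from the identity; the conjugating maps are arbitrary homeomorphisms. -/
def P (n : ℕ) : Prop :=
  ∀ A B : S2 ≃ₜ S2, InG A → InG B → A ≠ Homeomorph.refl S2 → B ≠ Homeomorph.refl S2 →
    ∃ H : Fin n → (S2 ≃ₜ S2), B = (List.ofFn fun i => H i * A * (H i)⁻¹).prod

lemma inG_ho {T : ℝ → E3 → E3} (h : IsLinFlow T) (t : ℝ) : InG (ho h t) := by
  refine ⟨fun s => ho h ((s : ℝ) * t), ho_iso_cont h t, ?_, ?_⟩
  · have h1 : (((0 : unitInterval) : ℝ) * t) = 0 := by rw [Set.Icc.coe_zero, zero_mul]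
    change ho h (((0 : unitInterval) : ℝ) * t) = _
    rw [h1, ho_zero]
    rfl
  · have h1 : (((1 : unitInterval) : ℝ) * t) = t := by rw [Set.Icc.coe_one, one_mul]
    change ho h (((1 : unitInterval) : ℝ) * t) = _
    rw [h1]

/-- the product of two involutions is inverted by the first one -/
lemma conj_inv {Γ : Type*} [Group Γ] {X Y : Γ} (hX : X * X = 1) (hY : Y * Y = 1) :
    X * (X * Y) * X⁻¹ = (X * Y)⁻¹ := by
  apply eq_inv_of_mul_eq_one_left
  have h1 : X⁻¹ = X := inv_eq_of_mul_eq_one_left hX
  rw [h1]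
  have h2 : X * (X * Y) * X * (X * Y) = (X * X) * Y * ((X * X) * Y) := by
    simp only [mul_assoc]
  rw [h2, hX, one_mul, hY]

/-- **The least number of conjugates is at least three.** -/
theorem main (n : ℕ) (hn : P n) : 3 ≤ n := by
  by_contra hlt
  have hB1 : B ≠ 1 := by
    intro h
    apply not_reversible 1
    rw [h]
    group
  obtain ⟨H, hH⟩ := hn A B (inG_ho _ _) (inG_ho _ _) A_ne hB1
  have hinv : ∀ K : S2 ≃ₜ S2, (K * A * K⁻¹) * (K * A * K⁻¹) = 1 := by
    intro K
    have h1 : (K * A * K⁻¹) * (K * A * K⁻¹) = K * (A * A) * K⁻¹ := by group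
    rw [h1, A_mul_A]
    group
  have hn3 : n = 0 ∨ n = 1 ∨ n = 2 := by omega
  rcases hn3 with rfl | rfl | rfl
  · apply hB1
    rw [hH]
    simp
  · rw [List.ofFn_succ, List.ofFn_zero, List.prod_cons, List.prod_nil, mul_one] at hH
    have h1 : B * B = 1 := by
      rw [hH]
      exact hinv (H 0)
    apply not_reversible 1
    rw [one_mul, inv_one, mul_one]
    exact eq_inv_of_mul_eq_one_left h1
  · rw [List.ofFn_succ, List.ofFn_succ, List.ofFn_zero, List.prod_cons, List.prod_cons,
      List.prod_nil, mul_one] at hH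
    apply not_reversible (H 0 * A * (H 0)⁻¹)
    rw [hH]
    exact conj_inv (hinv _) (hinv _)

end Pool.Agent.TH480.SC
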