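import Mathlib

set_option autoImplicit false

/-!
# Flows on the 2-sphere induced by one-parameter groups of linear maps
-/

open Filter Topology

namespace Pool.Agent.TH480.SC

/-- Euclidean three-space. -/
abbrev E3 : Type := EuclideanSpace ℝ (Fin 3)

/-- The 2-sphere: the unit sphere of Euclidean three-space. -/
abbrev S2 : Type := Metric.sphere (0 : E3) 1

/-- normalisation -/
noncomputable def nrm (v : E3) : E3 := ‖v‖⁻¹ • v

lemma nrm_smul {c : ℝ} (hc : 0 < c) (v : E3) : nrm (c • v) = nrm v := by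
  unfold nrm
  rw [norm_smul, Real.norm_of_nonneg hc.le, mul_inv, smul_smul]
  congr 1
  rw [mul_comm c⁻¹, mul_assoc, inv_mul_cancel₀ hc.ne', mul_one]

lemma norm_nrm {v : E3} (hv : v ≠ 0) : ‖nrm v‖ = 1 := by
  unfold nrm
  rw [norm_smul, norm_inv, norm_norm, inv_mul_cancel₀ (norm_ne_zero_iff.2 hv)]

lemma nrm_of_norm_one {v : E3} (hv : ‖v‖ = 1) : nrm v = v := by
  unfold nrm
  rw [hv, inv_one, one_smul]

lemma nrm_tendsto {f : ℕ → E3} {v : E3} (hv : v ≠ 0) (h : Tendsto f atTop (𝓝 v)) :
    Tendsto (fun n => nrm (f n)) atTop (𝓝 (nrm v)) :=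
  (h.norm.inv₀ (norm_ne_zero_iff.2 hv)).smul h

/-- a one-parameter group of homogeneous maps -/
structure IsLinFlow (T : ℝ → E3 → E3) : Prop where
  zero : ∀ v, T 0 v = v
  add : ∀ s t v, T s (T t v) = T (s + t) v
  smul : ∀ (t c : ℝ) v, T t (c • v) = c • T t v
  cont : Continuous fun p : ℝ × E3 => T p.1 p.2

variable {T : ℝ → E3 → E3}

lemma IsLinFlow.ne_zero (h : IsLinFlow T) (t : ℝ) {v : E3} (hv : v ≠ 0) : T t v ≠ 0 := by
  intro h0
  apply hv
  have h1 := h.add (-t) t v
  rw [h0, neg_add_cancel, h.zero] at h1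
  have h2 := h.smul (-t) 0 0
  rw [smul_zero, zero_smul] at h2
  rw [← h1, h2]

/-- the induced map of the sphere at time `t` -/
noncomputable def fl (h : IsLinFlow T) (t : ℝ) (x : S2) : S2 :=
  ⟨nrm (T t x.1), by
    rw [mem_sphere_zero_iff_norm]
    exact norm_nrm (h.ne_zero t (ne_zero_of_mem_unit_sphere x))⟩

lemma fl_zero (h : IsLinFlow T) (x : S2) : fl h 0 x = x := by
  apply Subtype.ext
  change nrm (T 0 x.1) = x.1
  rw [h.zero]
  exact nrm_of_norm_one (mem_sphere_zero_iff_norm.1 x.2)

lemma nrm_flow (h : IsLinFlow T) (s : ℝ) {v : E3} (hv : v ≠ 0) : nrm (T s (nrm v)) = nrm (T s v) := by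
  have h1 : nrm v = ‖v‖⁻¹ • v := rfl
  rw [h1, h.smul, nrm_smul (inv_pos.2 (norm_pos_iff.2 hv))]

lemma fl_add (h : IsLinFlow T) (s t : ℝ) (x : S2) : fl h s (fl h t x) = fl h (s + t) x := by
  apply Subtype.ext
  change nrm (T s (nrm (T t x.1))) = nrm (T (s + t) x.1)
  rw [nrm_flow h s (h.ne_zero t (ne_zero_of_mem_unit_sphere x)), h.add]

lemma fl_cont (h : IsLinFlow T) : Continuous fun p : ℝ × S2 => fl h p.1 p.2 := by
  apply Continuous.subtype_mk
  have h1 : Continuous fun p : ℝ × S2 => T p.1 p.2.1 :=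
    h.cont.comp (continuous_fst.prodMk (continuous_subtype_val.comp continuous_snd))
  exact (h1.norm.inv₀ fun p =>
    norm_ne_zero_iff.2 (h.ne_zero p.1 (ne_zero_of_mem_unit_sphere p.2))).smul h1

lemma fl_cont_t (h : IsLinFlow T) (t : ℝ) : Continuous (fl h t) := by
  have h1 : Continuous fun x : S2 => ((t, x) : ℝ × S2) := continuous_const.prodMk continuous_id
  have h2 := Continuous.comp (fl_cont h) h1
  exact h2

/-- the homeomorphism of the sphere at time `t` -/
noncomputable def ho (h : IsLinFlow T) (t : ℝ) : S2 ≃ₜ S2 where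
  toFun := fl h t
  invFun := fl h (-t)
  left_inv x := by rw [fl_add, neg_add_cancel, fl_zero]
  right_inv x := by rw [fl_add, add_neg_cancel, fl_zero]
  continuous_toFun := fl_cont_t h t
  continuous_invFun := fl_cont_t h (-t)

lemma ho_apply (h : IsLinFlow T) (t : ℝ) (x : S2) : ho h t x = fl h t x := rfl

lemma ho_mul (h : IsLinFlow T) (s t : ℝ) : ho h s * ho h t = ho h (s + t) := by
  ext1 x
  exact fl_add h s t x

lemma ho_zero (h : IsLinFlow T) : ho h 0 = 1 := by
  ext1 x
  exact fl_zero h x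

lemma ho_inv (h : IsLinFlow T) (t : ℝ) : (ho h t)⁻¹ = ho h (-t) := by
  rw [inv_eq_iff_mul_eq_one, ho_mul, add_neg_cancel, ho_zero]

lemma ho_pow (h : IsLinFlow T) (t : ℝ) (n : ℕ) : ho h t ^ n = ho h (n * t) := by
  induction n with
  | zero => rw [pow_zero, Nat.cast_zero, zero_mul, ho_zero]
  | succ n ih => rw [pow_succ, ih, ho_mul]; congr 1; push_cast; ring

lemma fl_iso_cont (h : IsLinFlow T) (t : ℝ) :
    Continuous fun p : unitInterval × S2 => fl h ((p.1 : ℝ) * t) p.2 := by
  have h1 : Continuous fun p : unitInterval × S2 => (((p.1 : ℝ) * t, p.2) : ℝ × S2) :=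
    ((continuous_subtype_val.comp continuous_fst).mul continuous_const).prodMk continuous_snd
  have h2 := Continuous.comp (fl_cont h) h1
  exact h2

lemma ho_iso_cont (h : IsLinFlow T) (t : ℝ) :
    Continuous fun p : unitInterval × S2 => (ho h ((p.1 : ℝ) * t)) p.2 := by
  have h1 : (fun p : unitInterval × S2 => (ho h ((p.1 : ℝ) * t)) p.2) =
      fun p : unitInterval × S2 => fl h ((p.1 : ℝ) * t) p.2 := by
    funext p
    exact ho_apply h _ _
  rw [h1]
  exact fl_iso_cont h t

/-- unit vectors -/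
noncomputable def e (i : Fin 3) : E3 := EuclideanSpace.single i 1

lemma e_apply (i j : Fin 3) : (e i) j = if j = i then 1 else 0 := by
  unfold e
  rw [PiLp.single_apply]

lemma norm_e (i : Fin 3) : ‖e i‖ = 1 := by
  unfold e
  rw [PiLp.norm_single, norm_one]

/-- the stretching of the first coordinate -/
noncomputable def L (t : ℝ) (v : E3) : E3 := v + ((Real.exp t - 1) * v 0) • e 0

lemma isLinFlow_L : IsLinFlow L where
  zero v := by
    unfold L
    rw [Real.exp_zero, sub_self, zero_mul, zero_smul, add_zero]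
  add s t v := by
    unfold L
    have h1 : (v + ((Real.exp t - 1) * v 0) • e 0) 0 = Real.exp t * v 0 := by
      rw [PiLp.add_apply, PiLp.smul_apply, e_apply, if_pos rfl, smul_eq_mul]
      ring
    rw [h1, add_assoc, ← add_smul, Real.exp_add]
    congr 2
    ring
  smul t c v := by
    unfold L
    rw [PiLp.smul_apply, smul_add, smul_smul, smul_eq_mul]
    congr 2
    ring
  cont := by
    unfold L
    have h1 : Continuous fun p : ℝ × E3 => p.2 0 := by fun_prop
    exact continuous_snd.add ((((Real.continuous_exp.comp continuous_fst).sub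
      continuous_const).mul h1).smul continuous_const)

/-- the rotation about the third axis -/
noncomputable def R (t : ℝ) (v : E3) : E3 :=
  v + ((Real.cos t - 1) * v 0 - Real.sin t * v 1) • e 0 +
    (Real.sin t * v 0 + (Real.cos t - 1) * v 1) • e 1

lemma R_zero_apply (t : ℝ) (v : E3) : R t v 0 = Real.cos t * v 0 - Real.sin t * v 1 := by
  unfold R
  rw [PiLp.add_apply, PiLp.add_apply, PiLp.smul_apply, PiLp.smul_apply, e_apply, e_apply,
    if_pos rfl, if_neg (by decide), smul_eq_mul, smul_eq_mul]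
  ring

lemma R_one_apply (t : ℝ) (v : E3) : R t v 1 = Real.sin t * v 0 + Real.cos t * v 1 := by
  unfold R
  rw [PiLp.add_apply, PiLp.add_apply, PiLp.smul_apply, PiLp.smul_apply, e_apply, e_apply,
    if_neg (by decide), if_pos rfl, smul_eq_mul, smul_eq_mul]
  ring

lemma R_two_apply (t : ℝ) (v : E3) : R t v 2 = v 2 := by
  unfold R
  rw [PiLp.add_apply, PiLp.add_apply, PiLp.smul_apply, PiLp.smul_apply, e_apply, e_apply,
    if_neg (by decide), if_neg (by decide), smul_eq_mul, smul_eq_mul]
  ring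

lemma isLinFlow_R : IsLinFlow R where
  zero v := by
    ext i
    fin_cases i
    · change R 0 v 0 = v 0
      rw [R_zero_apply, Real.cos_zero, Real.sin_zero]; ring
    · change R 0 v 1 = v 1
      rw [R_one_apply, Real.cos_zero, Real.sin_zero]; ring
    · change R 0 v 2 = v 2
      rw [R_two_apply]
  add s t v := by
    ext i
    fin_cases i
    · change R s (R t v) 0 = R (s + t) v 0
      rw [R_zero_apply, R_zero_apply, R_one_apply, R_zero_apply, Real.cos_add, Real.sin_add]; ring
    · change R s (R t v) 1 = R (s + t) v 1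
      rw [R_one_apply, R_zero_apply, R_one_apply, R_one_apply, Real.cos_add, Real.sin_add]; ring
    · change R s (R t v) 2 = R (s + t) v 2
      rw [R_two_apply, R_two_apply, R_two_apply]
  smul t c v := by
    unfold R
    rw [PiLp.smul_apply, PiLp.smul_apply, smul_add, smul_add, smul_smul, smul_smul, smul_eq_mul,
      smul_eq_mul]
    congr 2
    · congr 2
      ring
    · ring
  cont := by
    unfold R
    have h1 : Continuous fun p : ℝ × E3 => p.2 0 := by fun_prop
    have h2 : Continuous fun p : ℝ × E3 => p.2 1 := by fun_prop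
    fun_prop

end Pool.Agent.TH480.SC
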