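import Pool.Agent.TH480.SC.Flow

set_option autoImplicit false

/-!
# A homeomorphism of the 2-sphere which is not conjugate to its inverse
-/

open Filter Topology

namespace Pool.Agent.TH480.SC

/-- the stretching homeomorphism -/
noncomputable def B : S2 ≃ₜ S2 := ho isLinFlow_L 1

/-- the rotation by a half-turn -/
noncomputable def A : S2 ≃ₜ S2 := ho isLinFlow_R Real.pi

lemma A_mul_A : A * A = 1 := by
  unfold A
  rw [ho_mul]
  ext1 x
  apply Subtype.ext
  change nrm (R (Real.pi + Real.pi) x.1) = x.1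
  have h1 : R (Real.pi + Real.pi) x.1 = x.1 := by
    unfold R
    rw [← two_mul, Real.cos_two_pi, Real.sin_two_pi]
    simp
  rw [h1]
  exact nrm_of_norm_one (mem_sphere_zero_iff_norm.1 x.2)

/-- the point `e 0` of the sphere -/
noncomputable def p0 : S2 := ⟨e 0, mem_sphere_zero_iff_norm.2 (norm_e 0)⟩

lemma A_ne : A ≠ 1 := by
  intro h
  have h1 : (A p0).1 = p0.1 := by rw [h]; rfl
  have h2 : (A p0).1 = nrm (R Real.pi (e 0)) := rfl
  have h3 : R Real.pi (e 0) = (-1 : ℝ) • e 0 := by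
    ext i
    fin_cases i
    · change R Real.pi (e 0) 0 = ((-1 : ℝ) • e 0) 0
      rw [R_zero_apply, PiLp.smul_apply, Real.cos_pi, Real.sin_pi, smul_eq_mul]; ring
    · change R Real.pi (e 0) 1 = ((-1 : ℝ) • e 0) 1
      rw [R_one_apply, PiLp.smul_apply, Real.cos_pi, Real.sin_pi, e_apply, e_apply, smul_eq_mul,
        if_pos rfl, if_neg (by decide)]; ring
    · change R Real.pi (e 0) 2 = ((-1 : ℝ) • e 0) 2
      rw [R_two_apply, PiLp.smul_apply, e_apply, smul_eq_mul, if_neg (by decide)]; ring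
  have h4 : nrm ((-1 : ℝ) • e 0) = (-1 : ℝ) • e 0 := by
    apply nrm_of_norm_one
    rw [norm_smul, norm_e]
    simp
  rw [h2, h3, h4] at h1
  have h5 := congrArg (fun v : E3 => v 0) h1
  have h6 : ((-1 : ℝ) • e 0) 0 = -1 := by
    rw [PiLp.smul_apply, e_apply, if_pos rfl, smul_eq_mul, mul_one]
  have h7 : (p0.1 : E3) 0 = 1 := by
    change (e 0) 0 = 1
    rw [e_apply, if_pos rfl]
  change ((-1 : ℝ) • e 0) 0 = (p0.1 : E3) 0 at h5
  rw [h6, h7] at h5
  norm_num at h5

lemma B_pow_apply (n : ℕ) (x : S2) : ((B ^ n) x).1 = nrm (L n x.1) := by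
  unfold B
  rw [ho_pow, mul_one]
  rfl

lemma B_inv_pow_apply (n : ℕ) (x : S2) : ((B⁻¹ ^ n) x).1 = nrm (L (-n) x.1) := by
  unfold B
  rw [ho_inv, ho_pow]
  change nrm (L (n * -1) x.1) = _
  rw [mul_neg, mul_one]

lemma exp_neg_tendsto : Tendsto (fun n : ℕ => Real.exp (-(n : ℝ))) atTop (𝓝 0) :=
  (Real.tendsto_exp_neg_atTop_nhds_zero).comp tendsto_natCast_atTop_atTop

/-- The forward orbits off the fixed circle converge to one of two points. -/
lemma forward (x : S2) (hx : (x.1 : E3) 0 ≠ 0) :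
    Tendsto (fun n : ℕ => ((B ^ n) x).1) atTop (𝓝 (nrm ((x.1 : E3) 0 • e 0))) := by
  have h0 : (x.1 : E3) 0 • e 0 ≠ 0 := by
    intro h
    rcases smul_eq_zero.1 h with h | h
    · exact hx h
    · have := norm_e 0
      rw [h, norm_zero] at this
      norm_num at this
  have h1 : ∀ n : ℕ, ((B ^ n) x).1 =
      nrm (Real.exp (-(n : ℝ)) • x.1 + ((1 - Real.exp (-(n : ℝ))) * (x.1 : E3) 0) • e 0) := by
    intro n
    rw [B_pow_apply, ← nrm_smul (Real.exp_pos (-(n : ℝ))) (L n x.1)]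
    congr 1
    unfold L
    rw [smul_add, smul_smul]
    congr 2
    rw [← mul_assoc, mul_sub, ← Real.exp_add, neg_add_cancel, Real.exp_zero, mul_one]
  simp only [h1]
  refine nrm_tendsto h0 ?_
  have h2 : Tendsto (fun n : ℕ => Real.exp (-(n : ℝ)) • x.1 +
      ((1 - Real.exp (-(n : ℝ))) * (x.1 : E3) 0) • e 0) atTop
      (𝓝 ((0 : ℝ) • x.1 + ((1 - 0) * (x.1 : E3) 0) • e 0)) :=
    (exp_neg_tendsto.smul_const _).add
      (((tendsto_const_nhds.sub exp_neg_tendsto).mul_const _).smul_const _)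
  rw [zero_smul, zero_add, sub_zero, one_mul] at h2
  exact h2

lemma forward_mem (x : S2) (hx : (x.1 : E3) 0 ≠ 0) :
    nrm ((x.1 : E3) 0 • e 0) = e 0 ∨ nrm ((x.1 : E3) 0 • e 0) = -e 0 := by
  rcases lt_or_gt_of_ne hx with h | h
  · right
    have h1 : (x.1 : E3) 0 • e 0 = (-(x.1 : E3) 0) • (-e 0) := by
      rw [smul_neg, neg_smul, neg_neg]
    rw [h1, nrm_smul (by linarith)]
    exact nrm_of_norm_one (by rw [norm_neg, norm_e])
  · left
    rw [nrm_smul h]
    exact nrm_of_norm_one (norm_e 0)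

/-- The points of the circle are fixed. -/
lemma fixed (n : ℕ) (x : S2) (hx : (x.1 : E3) 0 = 0) : (B ^ n) x = x := by
  apply Subtype.ext
  rw [B_pow_apply]
  unfold L
  rw [hx, mul_zero, zero_smul, add_zero]
  exact nrm_of_norm_one (mem_sphere_zero_iff_norm.1 x.2)

/-- the point between `e 0` and a point `c` of the circle -/
noncomputable def y (c : S2) (hc : (c.1 : E3) 0 = 0) : S2 :=
  ⟨nrm (e 0 + c.1), by
    rw [mem_sphere_zero_iff_norm]
    apply norm_nrm
    intro h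
    have h1 : (e 0 + c.1) 0 = 1 := by
      rw [PiLp.add_apply, e_apply, if_pos rfl, hc, add_zero]
    rw [h] at h1
    have h2 : (0 : E3) 0 = 0 := rfl
    rw [h2] at h1
    norm_num at h1⟩

lemma y_ne (c : S2) (hc : (c.1 : E3) 0 = 0) : y c hc ≠ c := by
  intro h
  have h1 : (y c hc).1 = c.1 := by rw [h]
  have h0 : e 0 + c.1 ≠ 0 := by
    intro h
    have h1 : (e 0 + c.1) 0 = 1 := by
      rw [PiLp.add_apply, e_apply, if_pos rfl, hc, add_zero]
    rw [h] at h1
    have h2 : (0 : E3) 0 = 0 := rfl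
    rw [h2] at h1
    norm_num at h1
  have h2 : ((y c hc).1 : E3) 0 = ‖e 0 + c.1‖⁻¹ * 1 := by
    change (‖e 0 + c.1‖⁻¹ • (e 0 + c.1)) 0 = _
    rw [PiLp.smul_apply, PiLp.add_apply, e_apply, if_pos rfl, hc, add_zero, smul_eq_mul]
  rw [h1, hc, mul_one] at h2
  have h3 : 0 < ‖e 0 + c.1‖⁻¹ := inv_pos.2 (norm_pos_iff.2 h0)
  linarith

/-- The backward orbit of `y c` converges to `c`. -/
lemma backward (c : S2) (hc : (c.1 : E3) 0 = 0) :
    Tendsto (fun n : ℕ => (B⁻¹ ^ n) (y c hc)) atTop (𝓝 c) := by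
  rw [tendsto_subtype_rng]
  have h0 : e 0 + c.1 ≠ 0 := by
    intro h
    have h1 : (e 0 + c.1) 0 = 1 := by
      rw [PiLp.add_apply, e_apply, if_pos rfl, hc, add_zero]
    rw [h] at h1
    have h2 : (0 : E3) 0 = 0 := rfl
    rw [h2] at h1
    norm_num at h1
  have hc0 : (c.1 : E3) ≠ 0 := ne_zero_of_mem_unit_sphere c
  have h1 : ∀ n : ℕ, ((B⁻¹ ^ n) (y c hc)).1 = nrm (c.1 + Real.exp (-(n : ℝ)) • e 0) := by
    intro n
    rw [B_inv_pow_apply]
    change nrm (L (-n) (nrm (e 0 + c.1))) = _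
    rw [nrm_flow isLinFlow_L _ h0]
    congr 1
    unfold L
    rw [PiLp.add_apply, e_apply, if_pos rfl, hc, add_zero, mul_one, sub_smul, one_smul]
    abel
  simp only [h1]
  have h2 : Tendsto (fun n : ℕ => c.1 + Real.exp (-(n : ℝ)) • e 0) atTop
      (𝓝 (c.1 + (0 : ℝ) • e 0)) :=
    tendsto_const_nhds.add (exp_neg_tendsto.smul_const _)
  rw [zero_smul, add_zero] at h2
  have h3 := nrm_tendsto hc0 h2
  rw [nrm_of_norm_one (mem_sphere_zero_iff_norm.1 c.2)] at h3
  exact h3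

/-- `B` is not conjugate to its inverse. -/
theorem not_reversible (K : S2 ≃ₜ S2) : K * B * K⁻¹ ≠ B⁻¹ := by
  intro h
  have h1 : ∀ n : ℕ, K⁻¹ * B⁻¹ ^ n * K = B ^ n := by
    intro n
    rw [← h, conj_pow]
    group
  have key : ∀ (c : S2) (hc : (c.1 : E3) 0 = 0), (K⁻¹ c).1 = e 0 ∨ (K⁻¹ c).1 = -e 0 := by
    intro c hc
    set x : S2 := K⁻¹ (y c hc) with hx
    have h2 : ∀ n : ℕ, (B ^ n) x = K⁻¹ ((B⁻¹ ^ n) (y c hc)) := by
      intro n
      rw [← h1 n, hx]
      change K⁻¹ ((B⁻¹ ^ n) (K (K⁻¹ (y c hc)))) = _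
      congr 2
      exact K.apply_symm_apply _
    have h3 : Tendsto (fun n : ℕ => (B ^ n) x) atTop (𝓝 (K⁻¹ c)) := by
      simp only [h2]
      exact (K⁻¹.continuous.tendsto c).comp (backward c hc)
    have h4 : Tendsto (fun n : ℕ => ((B ^ n) x).1) atTop (𝓝 (K⁻¹ c).1) :=
      (continuous_subtype_val.tendsto _).comp h3
    by_cases hx0 : (x.1 : E3) 0 = 0
    · exfalso
      have h5 : ∀ n : ℕ, (B ^ n) x = x := fun n => fixed n x hx0
      simp only [h5] at h3
      have h6 : x = K⁻¹ c := tendsto_nhds_unique tendsto_const_nhds h3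
      rw [hx] at h6
      exact y_ne c hc (K⁻¹.injective h6)
    · have h5 := tendsto_nhds_unique (forward x hx0) h4
      rw [← h5]
      exact forward_mem x hx0
  have c1 : ((⟨e 1, mem_sphere_zero_iff_norm.2 (norm_e 1)⟩ : S2).1 : E3) 0 = 0 := by
    change (e 1) 0 = 0
    rw [e_apply, if_neg (by decide)]
  have c2 : ((⟨e 2, mem_sphere_zero_iff_norm.2 (norm_e 2)⟩ : S2).1 : E3) 0 = 0 := by
    change (e 2) 0 = 0
    rw [e_apply, if_neg (by decide)]
  have c3 : ((⟨-e 1, mem_sphere_zero_iff_norm.2 (by rw [norm_neg, norm_e])⟩ : S2).1 : E3) 0 = 0 := by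
    change (-e 1) 0 = 0
    rw [PiLp.neg_apply, e_apply, if_neg (by decide), neg_zero]
  have n12 : e 1 ≠ e 2 := by
    intro h
    have := congrArg (fun v : E3 => v 1) h
    change (e 1) 1 = (e 2) 1 at this
    rw [e_apply, e_apply, if_pos rfl, if_neg (by decide)] at this
    norm_num at this
  have n13 : e 1 ≠ -e 1 := by
    intro h
    have := congrArg (fun v : E3 => v 1) h
    change (e 1) 1 = (-e 1) 1 at this
    rw [PiLp.neg_apply, e_apply, if_pos rfl] at this
    norm_num at this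
  have n23 : e 2 ≠ -e 1 := by
    intro h
    have := congrArg (fun v : E3 => v 1) h
    change (e 2) 1 = (-e 1) 1 at this
    rw [PiLp.neg_apply, e_apply, e_apply, if_pos rfl, if_neg (by decide)] at this
    norm_num at this
  have inj : ∀ a b : S2, (K⁻¹ a).1 = (K⁻¹ b).1 → a.1 = b.1 := fun a b hab =>
    congrArg Subtype.val (K⁻¹.injective (Subtype.ext hab))
  rcases key _ c1 with k1 | k1 <;> rcases key _ c2 with k2 | k2 <;>
    rcases key _ c3 with k3 | k3
  · exact n12 (inj _ _ (k1.trans k2.symm))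
  · exact n12 (inj _ _ (k1.trans k2.symm))
  · exact n13 (inj _ _ (k1.trans k3.symm))
  · exact n23 (inj _ _ (k2.trans k3.symm))
  · exact n23 (inj _ _ (k2.trans k3.symm))
  · exact n13 (inj _ _ (k1.trans k3.symm))
  · exact n12 (inj _ _ (k1.trans k2.symm))
  · exact n12 (inj _ _ (k1.trans k2.symm))

end Pool.Agent.TH480.SC
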